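import Pool.Agent.H69.Ball.Basic

/-!
# The moment formula of the complex ball
-/

open Metric Filter Topology MeasureTheory

namespace Pool.Agent.H69.Ball

/-- Integration of a homogeneous function times a radial function in polar coordinates. -/
lemma polar_homog {F : Type*} [NormedAddCommGroup F] [NormedSpace ℝ F] [FiniteDimensional ℝ F]
    [MeasurableSpace F] [BorelSpace F] [Nontrivial F] (μ : Measure F) [μ.IsAddHaarMeasure]
    {h : F → ℝ} {m : ℕ} (hh : ∀ (x : F) (r : ℝ), 0 < r → h (r • x) = r ^ m * h x) (φ : ℝ → ℝ) :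
    ∫ x, h x * φ ‖x‖ ∂μ = (∫ u, h (u : F) ∂μ.toSphere) *
      ∫ r in Set.Ioi (0 : ℝ), r ^ (Module.finrank ℝ F - 1) * (r ^ m * φ r) := by
  have e1 : ∫ x, h x * φ ‖x‖ ∂μ
      = ∫ x : ({(0)}ᶜ : Set F), h x.1 * φ ‖x.1‖ ∂(μ.comap (↑)) := by
    rw [integral_subtype_comap (measurableSet_singleton _).compl fun x ↦ h x * φ ‖x‖,
      restrict_compl_singleton]
  have e2 : ∫ x : ({(0)}ᶜ : Set F), h x.1 * φ ‖x.1‖ ∂(μ.comap (↑))
      = ∫ x : sphere (0 : F) 1 × Set.Ioi (0 : ℝ), h x.1.1 * (x.2.1 ^ m * φ x.2.1)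
        ∂μ.toSphere.prod (.volumeIoiPow (Module.finrank ℝ F - 1)) := by
    rw [← μ.measurePreserving_homeomorphUnitSphereProd.integral_comp
        (Homeomorph.measurableEmbedding _)]
    refine integral_congr_ae (Filter.Eventually.of_forall fun x => ?_)
    have hx : (0 : ℝ) < ‖x.1‖ := norm_pos_iff.2 x.2
    have h1 : ((homeomorphUnitSphereProd F x).1 : F) = ‖x.1‖⁻¹ • x.1 := by simp
    have h2 : ((homeomorphUnitSphereProd F x).2 : ℝ) = ‖x.1‖ := by simp
    show h x.1 * φ ‖x.1‖ = h ((homeomorphUnitSphereProd F x).1 : F) *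
      (((homeomorphUnitSphereProd F x).2 : ℝ) ^ m * φ ((homeomorphUnitSphereProd F x).2 : ℝ))
    rw [h1, h2]
    have h3 : x.1 = ‖x.1‖ • (‖x.1‖⁻¹ • x.1) := by
      rw [smul_smul, mul_inv_cancel₀ hx.ne', one_smul]
    conv_lhs => rw [h3, hh _ _ hx]
    rw [← h3]
    ring
  have e3 := integral_prod_mul (μ := μ.toSphere)
    (ν := Measure.volumeIoiPow (Module.finrank ℝ F - 1))
    (fun u : sphere (0 : F) 1 => h u.1) (fun r : Set.Ioi (0 : ℝ) => r.1 ^ m * φ r.1)
  rw [e1, e2, e3]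
  congr 1
  simp only [Measure.volumeIoiPow, ENNReal.ofReal]
  rw [integral_withDensity_eq_integral_smul,
    integral_subtype_comap measurableSet_Ioi fun a ↦
      Real.toNNReal (a ^ (Module.finrank ℝ F - 1)) • (a ^ m * φ a),
    setIntegral_congr_fun measurableSet_Ioi fun x hx ↦ ?_]
  · rw [NNReal.smul_def, Real.coe_toNNReal _ (pow_nonneg hx.out.le _), smul_eq_mul]
  · exact (measurable_subtype_coe.pow_const _).real_toNNReal

/-- Gaussian integrals of homogeneous functions are multiples of the integrals over the ball. -/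
lemma gaussian_homog {F : Type*} [NormedAddCommGroup F] [NormedSpace ℝ F] [FiniteDimensional ℝ F]
    [MeasurableSpace F] [BorelSpace F] [Nontrivial F] (μ : Measure F) [μ.IsAddHaarMeasure]
    {h : F → ℝ} {k n : ℕ} (hn : Module.finrank ℝ F = 2 * n)
    (hh : ∀ (x : F) (r : ℝ), 0 < r → h (r • x) = r ^ (2 * k) * h x) :
    ∫ x, h x * Real.exp (-‖x‖ ^ 2) ∂μ = ((n + k).factorial : ℝ) * ∫ x in ball (0 : F) 1, h x ∂μ := by
  have hn0 : 0 < n := by
    have := Module.finrank_pos (R := ℝ) (M := F)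
    omega
  have h1 := polar_homog μ hh (fun r => Real.exp (-r ^ 2))
  have h2 := polar_homog μ hh (fun r => Set.indicator (Set.Iio 1) 1 r)
  have h3 : ∫ x in ball (0 : F) 1, h x ∂μ = ∫ x, h x * Set.indicator (Set.Iio 1) 1 ‖x‖ ∂μ := by
    rw [← integral_indicator measurableSet_ball]
    refine integral_congr_ae (Filter.Eventually.of_forall fun x => ?_)
    by_cases hx : ‖x‖ < 1
    · simp [Set.indicator, hx]
    · simp [Set.indicator, hx]
  have h4 : ∫ r in Set.Ioi (0 : ℝ), r ^ (Module.finrank ℝ F - 1) * (r ^ (2 * k) *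
      Real.exp (-r ^ 2)) = ((n + k - 1).factorial : ℝ) / 2 := by
    have h5 := integral_rpow_mul_exp_neg_rpow (p := 2) (q := (2 * n - 1 + 2 * k : ℕ)) (by norm_num)
      (by
        have : (0 : ℝ) ≤ ((2 * n - 1 + 2 * k : ℕ) : ℝ) := Nat.cast_nonneg _
        linarith)
    have h6 : ((((2 * n - 1 + 2 * k : ℕ) : ℝ) + 1) / 2) = ((n + k - 1 : ℕ) : ℝ) + 1 := by
      have e1 : 2 * n - 1 + 2 * k = 2 * (n + k - 1) + 1 := by omega
      rw [e1]
      push_cast
      ring
    rw [h6, Real.Gamma_nat_eq_factorial] at h5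
    rw [show ((n + k - 1).factorial : ℝ) / 2 = 1 / 2 * ((n + k - 1).factorial : ℝ) by ring, ← h5, hn]
    refine setIntegral_congr_fun measurableSet_Ioi fun r _ => ?_
    simp only [Real.rpow_natCast, Real.rpow_two]
    rw [pow_add, mul_assoc]
  have h7 : ∫ r in Set.Ioi (0 : ℝ), r ^ (Module.finrank ℝ F - 1) * (r ^ (2 * k) *
      Set.indicator (Set.Iio 1) 1 r) = 1 / (2 * ((n + k : ℕ) : ℝ)) := by
    have h8 : ∫ r in Set.Ioi (0 : ℝ), r ^ (Module.finrank ℝ F - 1) * (r ^ (2 * k) *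
        Set.indicator (Set.Iio 1) 1 r) = ∫ r in (0 : ℝ)..1, r ^ (2 * n - 1 + 2 * k) := by
      rw [intervalIntegral.integral_of_le zero_le_one, ← integral_indicator measurableSet_Ioi,
        ← integral_indicator measurableSet_Ioc]
      have : ∀ᵐ r : ℝ, r ≠ 1 := by
        have := (measure_singleton (μ := (volume : Measure ℝ)) (1 : ℝ))
        rw [ae_iff]
        simp
      refine integral_congr_ae (this.mono fun r hr => ?_)
      simp only [Set.indicator, Set.mem_Ioi, Set.mem_Iio, Set.mem_Ioc, Pi.one_apply]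
      by_cases h0 : 0 < r
      · by_cases h9 : r < 1
        · rw [if_pos h0, if_pos h9, if_pos ⟨h0, h9.le⟩, hn]
          rw [pow_add]
          ring
        · have h10 : ¬ (0 < r ∧ r ≤ 1) := fun h => h9 (lt_of_le_of_ne h.2 hr)
          rw [if_pos h0, if_neg h9, if_neg h10]
          ring
      · have h10 : ¬ (0 < r ∧ r ≤ 1) := fun h => h0 h.1
        rw [if_neg h0, if_neg h10]
    rw [h8, integral_pow]
    have e1 : 2 * n - 1 + 2 * k + 1 = 2 * (n + k) := by omega
    have e2 : (((2 * n - 1 + 2 * k : ℕ) : ℝ) + 1) = 2 * ((n + k : ℕ) : ℝ) := by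
      have := congrArg (fun m : ℕ => (m : ℝ)) e1
      push_cast at this ⊢
      linarith
    rw [e2, e1, one_pow, zero_pow (by omega), sub_zero]
  rw [h3, h2, h1, h4, h7]
  obtain ⟨j, hj⟩ : ∃ j, n + k = j + 1 := ⟨n + k - 1, by omega⟩
  rw [hj, Nat.add_sub_cancel, Nat.factorial_succ]
  push_cast
  have : ((j : ℝ) + 1) ≠ 0 := by positivity
  field_simp

/-- Gaussian moments of a coordinate for the product measure. -/
lemma gaussian_pi (n k : ℕ) (i0 : Fin n) :
    ∫ x : Fin n → ℂ, ‖x i0‖ ^ (2 * k) * Real.exp (-∑ i, ‖x i‖ ^ 2)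
      = (k.factorial : ℝ) * ∫ x : Fin n → ℂ, Real.exp (-∑ i, ‖x i‖ ^ 2) := by
  have hk : ∀ k : ℕ, ∫ x : ℂ, ‖x‖ ^ (2 * k) * Real.exp (-‖x‖ ^ 2) = Real.pi * k.factorial := by
    intro k
    have h5 := Complex.integral_rpow_mul_exp_neg_rpow (p := 2) (q := (2 * k : ℕ)) (by norm_num)
      (by
        have : (0 : ℝ) ≤ ((2 * k : ℕ) : ℝ) := Nat.cast_nonneg _
        linarith)
    have h6 : ((((2 * k : ℕ) : ℝ) + 2) / 2) = (k : ℝ) + 1 := by
      push_cast
      ring
    rw [h6, Real.Gamma_nat_eq_factorial] at h5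
    rw [show Real.pi * (k.factorial : ℝ) = 2 * Real.pi / 2 * (k.factorial : ℝ) by ring, ← h5]
    refine integral_congr_ae (Filter.Eventually.of_forall fun x => ?_)
    simp only [Real.rpow_natCast, Real.rpow_two]
  have hprod : ∀ k : ℕ, ∫ x : Fin n → ℂ, ‖x i0‖ ^ (2 * k) * Real.exp (-∑ i, ‖x i‖ ^ 2)
      = (Real.pi * k.factorial) * Real.pi ^ (n - 1) := by
    intro k
    have h1 : ∀ x : Fin n → ℂ, ‖x i0‖ ^ (2 * k) * Real.exp (-∑ i, ‖x i‖ ^ 2)
        = ∏ i, (fun y : ℂ => ‖y‖ ^ (2 * (if i = i0 then k else 0)) * Real.exp (-‖y‖ ^ 2)) (x i) := by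
      intro x
      rw [Finset.prod_mul_distrib, ← Real.exp_sum, Finset.sum_neg_distrib]
      congr 1
      rw [Finset.prod_eq_single i0]
      · simp
      · intro b _ hb
        simp [hb]
      · simp
    have h2 := integral_fintype_prod_volume_eq_prod (ι := Fin n) (𝕜 := ℝ) (E := fun _ => ℂ)
      (fun i y => ‖y‖ ^ (2 * (if i = i0 then k else 0)) * Real.exp (-‖y‖ ^ 2))
    rw [integral_congr_ae (Filter.Eventually.of_forall h1), h2]
    simp only [hk]
    rw [← Finset.mul_prod_erase _ _ (Finset.mem_univ i0)]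
    simp only [if_true]
    congr 1
    rw [Finset.prod_congr rfl (g := fun _ => Real.pi)]
    · simp [Finset.card_erase_of_mem]
    · intro i hi
      rw [if_neg (Finset.ne_of_mem_erase hi)]
      simp
  have h0 := hprod 0
  simp only [mul_zero, pow_zero, one_mul] at h0
  rw [hprod k, h0]
  simp
  ring

/-- Gaussian moments of an inner product. -/
lemma gaussian_inner (n k : ℕ) (u : E n) (hu : ‖u‖ = 1) (hn : 1 ≤ n) :
    ∫ w : E n, ‖(inner ℂ w u : ℂ)‖ ^ (2 * k) * Real.exp (-‖w‖ ^ 2)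
      = (k.factorial : ℝ) * ∫ w : E n, Real.exp (-‖w‖ ^ 2) := by
  let i0 : Fin n := ⟨0, hn⟩
  obtain ⟨b, hb⟩ := Orthonormal.exists_orthonormalBasis_extension_of_card_eq (𝕜 := ℂ) (E := E n)
    (ι := Fin n) (by simp) (v := fun _ => u) (s := {i0}) (by
      rw [orthonormal_subsingleton_iff]
      intro i
      exact hu)
  have hb0 : b i0 = u := hb i0 rfl
  let L : (Fin n → ℂ) ≃L[ℝ] E n :=
    (((EuclideanSpace.equiv (Fin n) ℂ).symm.trans
      b.repr.symm.toContinuousLinearEquiv).toLinearEquiv.restrictScalars ℝ).toContinuousLinearEquiv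
  have hL1 : ∀ x, ‖L x‖ ^ 2 = ∑ i, ‖x i‖ ^ 2 := by
    intro x
    have : ‖L x‖ = ‖(EuclideanSpace.equiv (Fin n) ℂ).symm x‖ := b.repr.symm.norm_map _
    rw [this, EuclideanSpace.norm_sq_eq]
    rfl
  have hL2 : ∀ x, ‖(inner ℂ (L x) u : ℂ)‖ = ‖x i0‖ := by
    intro x
    have h1 : b.repr (L x) = (EuclideanSpace.equiv (Fin n) ℂ).symm x := b.repr.apply_symm_apply _
    have h2 := b.repr_apply_apply (L x) i0
    rw [h1, hb0] at h2
    rw [norm_inner_symm, ← h2]
    rfl
  have hν : (Measure.map L (volume : Measure (Fin n → ℂ))).IsAddHaarMeasure :=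
    L.isAddHaarMeasure_map _
  have hvol := Measure.isAddLeftInvariant_eq_smul (volume : Measure (E n))
    (Measure.map L (volume : Measure (Fin n → ℂ)))
  have key : ∀ f : E n → ℝ, ∫ w, f w = ((volume : Measure (E n)).addHaarScalarFactor
      (Measure.map L (volume : Measure (Fin n → ℂ))) : ℝ) * ∫ x, f (L x) := by
    intro f
    conv_lhs => rw [hvol]
    have hme : MeasurableEmbedding L := L.toHomeomorph.measurableEmbedding
    rw [integral_smul_nnreal_measure, NNReal.smul_def, smul_eq_mul, hme.integral_map]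
  rw [key, key]
  simp only [hL2, hL1]
  rw [gaussian_pi]
  ring

theorem moment (n k : ℕ) (hn : 1 ≤ n) (z : E n) :
    ∫ w in ball (0 : E n) 1, ‖(inner ℂ w z : ℂ)‖ ^ (2 * k)
      = ‖z‖ ^ (2 * k) * (volume (ball (0 : E n) 1)).toReal / (Nat.choose (n + k) n : ℝ) := by
  have hnz : Nonempty (Fin n) := ⟨⟨0, hn⟩⟩
  by_cases hz : z = 0
  · subst hz
    rcases Nat.eq_zero_or_pos k with rfl | hk
    · simp [Measure.real]
    · simp [hk.ne']
  have hfin : Module.finrank ℝ (E n) = 2 * n := by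
    rw [← Module.finrank_mul_finrank ℝ ℂ (E n)]
    simp
  set u : E n := ((‖z‖⁻¹ : ℝ) : ℂ) • z with hu
  have hz' : ‖z‖ ≠ 0 := norm_ne_zero_iff.2 hz
  have hu1 : ‖u‖ = 1 := by
    rw [hu, norm_smul, Complex.norm_real, norm_inv, norm_norm, inv_mul_cancel₀ hz']
  have hzu : z = ((‖z‖ : ℝ) : ℂ) • u := by
    rw [hu, smul_smul, ← Complex.ofReal_mul, mul_inv_cancel₀ hz', Complex.ofReal_one, one_smul]
  have hhom : ∀ (x : E n) (r : ℝ), 0 < r → ‖(inner ℂ (r • x) u : ℂ)‖ ^ (2 * k)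
      = r ^ (2 * k) * ‖(inner ℂ x u : ℂ)‖ ^ (2 * k) := by
    intro x r hr
    have : (r • x : E n) = ((r : ℂ)) • x := rfl
    rw [this, inner_smul_left, norm_mul, mul_pow]
    simp [abs_of_pos hr]
  have h1 := gaussian_homog (volume : Measure (E n)) (h := fun x => ‖(inner ℂ x u : ℂ)‖ ^ (2 * k))
    (k := k) hfin hhom
  have h2 := gaussian_homog (volume : Measure (E n)) (h := fun _ => (1 : ℝ)) (k := 0) hfin
    (by intro x r _; simp)
  rw [gaussian_inner n k u hu1 hn] at h1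
  simp only [one_mul, add_zero] at h2
  rw [h2] at h1
  have h3 : ∫ x in ball (0 : E n) 1, (1 : ℝ) = (volume (ball (0 : E n) 1)).toReal := by
    simp [Measure.real]
  rw [h3] at h1
  have h4 : ∫ w in ball (0 : E n) 1, ‖(inner ℂ w z : ℂ)‖ ^ (2 * k)
      = ‖z‖ ^ (2 * k) * ∫ w in ball (0 : E n) 1, ‖(inner ℂ w u : ℂ)‖ ^ (2 * k) := by
    rw [← integral_const_mul]
    refine integral_congr_ae (Filter.Eventually.of_forall fun w => ?_)
    show ‖(inner ℂ w z : ℂ)‖ ^ (2 * k) = ‖z‖ ^ (2 * k) * ‖(inner ℂ w u : ℂ)‖ ^ (2 * k)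
    conv_lhs => rw [hzu]
    rw [inner_smul_right, norm_mul, mul_pow]
    simp
  rw [h4]
  have h5 : (Nat.choose (n + k) n : ℝ) * ((n.factorial : ℝ) * (k.factorial : ℝ))
      = ((n + k).factorial : ℝ) := by
    have := Nat.add_choose_mul_factorial_mul_factorial n k
    rw [← this, ← Nat.choose_symm_add]
    push_cast
    ring
  have h6 : (Nat.choose (n + k) n : ℝ) ≠ 0 := by
    have := Nat.choose_pos (Nat.le_add_right n k)
    positivity
  have h7 : (n.factorial : ℝ) * (k.factorial : ℝ) ≠ 0 := by positivity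
  rw [← h5] at h1
  have h8 : ∫ w in ball (0 : E n) 1, ‖(inner ℂ w u : ℂ)‖ ^ (2 * k)
      = (volume (ball (0 : E n) 1)).toReal / (Nat.choose (n + k) n : ℝ) := by
    rw [eq_div_iff h6]
    apply mul_left_cancel₀ h7
    linear_combination -h1
  rw [h8]
  ring

end Pool.Agent.H69.Ball
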